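import Pool.Agent.Helper25.HL.Goals4
import Pool.Agent.Helper46.LS.AP
import Pool.Agent.Helper63.LS.NS

/-!
# Project HL (MP_03bcbb_an), packet HL-HAP: the hereditary approximation property from vanishing traces
-/

set_option autoImplicit false

open Filter Topology

noncomputable section

namespace Pool.Agent.Helper59.HL

open Pool.Agent.Helper25.HL

section

variable {E : Type} [NormedAddCommGroup E] [NormedSpace ℂ E]

theorem inv_norm_smul {s : ℝ} (F : E →L[ℂ] ℂ) (x v : E) :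
    (((‖F‖ * ‖x‖ / s : ℝ) : ℂ) * (((‖F‖⁻¹ : ℝ) : ℂ) • F) v) • (((‖x‖⁻¹ : ℝ) : ℂ) • x) =
      ((s⁻¹ : ℝ) : ℂ) • (F v • x) := by
  by_cases hF : ‖F‖ = 0
  · have : F = 0 := norm_eq_zero.1 hF
    subst this
    simp
  by_cases hx : ‖x‖ = 0
  · have : x = 0 := norm_eq_zero.1 hx
    subst this
    simp
  have hF' : ((‖F‖ : ℝ) : ℂ) ≠ 0 := by exact_mod_cast hF
  have hx' : ((‖x‖ : ℝ) : ℂ) ≠ 0 := by exact_mod_cast hx
  rw [smul_smul, smul_smul]
  congr 1
  change ((‖F‖ * ‖x‖ / s : ℝ) : ℂ) * (((‖F‖⁻¹ : ℝ) : ℂ) * F v) * ((‖x‖⁻¹ : ℝ) : ℂ) = _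
  push_cast
  field_simp

theorem inv_norm_mul {s : ℝ} (F : E →L[ℂ] ℂ) (x : E) :
    ((‖F‖ * ‖x‖ / s : ℝ) : ℂ) * (((‖F‖⁻¹ : ℝ) : ℂ) • F) (((‖x‖⁻¹ : ℝ) : ℂ) • x) =
      ((s⁻¹ : ℝ) : ℂ) * F x := by
  by_cases hF : ‖F‖ = 0
  · have : F = 0 := norm_eq_zero.1 hF
    subst this
    simp
  by_cases hx : ‖x‖ = 0
  · have : x = 0 := norm_eq_zero.1 hx
    subst this
    simp
  have hF' : ((‖F‖ : ℝ) : ℂ) ≠ 0 := by exact_mod_cast hF
  have hx' : ((‖x‖ : ℝ) : ℂ) ≠ 0 := by exact_mod_cast hx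
  rw [map_smul]
  change ((‖F‖ * ‖x‖ / s : ℝ) : ℂ) * (((‖x‖⁻¹ : ℝ) : ℂ) * (((‖F‖⁻¹ : ℝ) : ℂ) * F x)) = _
  push_cast
  field_simp

theorem norm_inv_smul_le (x : E) : ‖((‖x‖⁻¹ : ℝ) : ℂ) • x‖ ≤ 1 := by
  rw [norm_smul, Complex.norm_real, norm_inv, norm_norm]
  exact inv_mul_le_one

end

/-- HAP -/
theorem hap : Pool.Agent.Helper25.HL.S_HAP := by
  intro P D hN Y hY
  have hc : CompleteSpace Y := hY.completeSpace_coe
  refine (Pool.Agent.Helper46.LS.ap Pool.Agent.Helper63.LS.ns) Y ?_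
  intro f x hs h0
  choose F hF hFn using fun i => exists_extension_norm_eq Y (f i)
  set s : ℝ := ∑' i, ‖f i‖ * ‖x i‖ with hsdef
  have hpos : ∀ i, 0 ≤ ‖f i‖ * ‖x i‖ := fun i => by positivity
  have hs0 : 0 ≤ s := tsum_nonneg hpos
  rcases hs0.eq_or_lt with hz | hz
  · have h1 : ∀ i, ‖f i‖ * ‖x i‖ = 0 := by
      have h2 := (hasSum_zero_iff_of_nonneg hpos).1 (by
        have := hs.hasSum
        rwa [← hsdef, ← hz] at this)
      intro i
      exact congrFun h2 i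
    have h3 : ∀ i, f i (x i) = 0 := by
      intro i
      have := (f i).le_opNorm (x i)
      rw [h1 i] at this
      exact norm_le_zero_iff.1 this
    simp [h3]
  · have hsum : ∀ v : Y, Summable (fun i => f i v • x i) := by
      intro v
      refine Summable.of_norm_bounded (g := fun i => ‖v‖ * (‖f i‖ * ‖x i‖)) (hs.mul_left _) ?_
      intro i
      rw [norm_smul]
      have := (f i).le_opNorm v
      calc ‖f i v‖ * ‖x i‖ ≤ ‖f i‖ * ‖v‖ * ‖x i‖ :=
            mul_le_mul_of_nonneg_right this (norm_nonneg _)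
        _ = ‖v‖ * (‖f i‖ * ‖x i‖) := by ring
    have hzero : ∀ v : Y, ∑' i, (F i (v : XX P D)) • ((x i : Y) : XX P D) = 0 := by
      intro v
      have h1 := Y.subtypeL.map_tsum (hsum v)
      rw [h0 v, map_zero] at h1
      rw [h1]
      refine tsum_congr fun i => ?_
      rw [map_smul, hF]
      rfl
    have hxn : ∀ i, ‖((x i : Y) : XX P D)‖ = ‖x i‖ := fun i => rfl
    have key := hN (fun i => ‖F i‖ * ‖((x i : Y) : XX P D)‖ / s)
      (fun i => ((‖((x i : Y) : XX P D)‖⁻¹ : ℝ) : ℂ) • ((x i : Y) : XX P D))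
      (fun i => ((‖F i‖⁻¹ : ℝ) : ℂ) • F i)
      { hω := fun j => by positivity
        hs := by
          refine Summable.div_const ?_ s
          simpa only [hFn, hxn] using hs
        h1 := by
          rw [tsum_div_const]
          simp only [hFn, hxn]
          rw [← hsdef, div_self hz.ne']
        hu := fun j => norm_inv_smul_le _
        hf := fun j => norm_inv_smul_le _
        h0 := by
          intro j
          simp only [inv_norm_smul]
          have h1 := hzero (((‖((x j : Y) : XX P D)‖⁻¹ : ℝ) : ℂ) • x j)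
          have h2 : ((((‖((x j : Y) : XX P D)‖⁻¹ : ℝ) : ℂ) • x j : Y) : XX P D) =
            ((‖((x j : Y) : XX P D)‖⁻¹ : ℝ) : ℂ) • ((x j : Y) : XX P D) := rfl
          rw [h2] at h1
          rw [tsum_const_smul'' , h1, smul_zero] }
    simp only [inv_norm_mul] at key
    rw [tsum_mul_left] at key
    have h4 : ((s⁻¹ : ℝ) : ℂ) ≠ 0 := by
      exact_mod_cast (inv_pos.2 hz).ne'
    have h5 := (mul_eq_zero.1 key).resolve_left h4
    rw [← h5]
    refine tsum_congr fun i => ?_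
    rw [hF]

end Pool.Agent.Helper59.HL
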