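import Pool.Agent.Helper25.HL.Goals2

/-!
# Project HL, packet FUB: conditioning on the columns in `S`
-/

set_option autoImplicit false

namespace Pool.Agent.Helper59.HL

open Pool.Agent.Helper25.HL

/-- the matrix with the columns of `ρ` on `S` and those of `σ` off `S` -/
def mix {p q : ℕ} (S : Finset (Fin q)) (ρ σ : Fin p → Fin q → Bool) : Fin p → Fin q → Bool :=
  fun a t => if t ∈ S then ρ a t else σ a t

/-- the involution of the pairs -/
def sw {p q : ℕ} (S : Finset (Fin q)) :
    ((Fin p → Fin q → Bool) × (Fin p → Fin q → Bool)) ≃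
      ((Fin p → Fin q → Bool) × (Fin p → Fin q → Bool)) where
  toFun x := (mix S x.1 x.2, mix S x.2 x.1)
  invFun x := (mix S x.1 x.2, mix S x.2 x.1)
  left_inv x := by
    refine Prod.ext ?_ ?_ <;>
    · funext a t
      by_cases h : t ∈ S <;> simp [mix, h]
  right_inv x := by
    refine Prod.ext ?_ ?_ <;>
    · funext a t
      by_cases h : t ∈ S <;> simp [mix, h]

theorem fub : S_FUB := by
  classical
  intro p q S P c _ hρ hσ hc
  have hcard : Fintype.card (Fin p → Fin q → Bool) = 2 ^ (p * q) := by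
    rw [Fintype.card_fun, Fintype.card_fun, Fintype.card_bool, Fintype.card_fin,
      Fintype.card_fin, ← pow_mul, mul_comm]
  -- the key equivalence
  have hkey : ∀ x : (Fin p → Fin q → Bool) × (Fin p → Fin q → Bool),
      P (sw S x).1 (sw S x).1 ↔ P x.1 x.2 := by
    intro x
    have h1 : ∀ a, ∀ t ∈ S, (sw S x).1 a t = x.1 a t := by
      intro a t ht
      show mix S x.1 x.2 a t = _
      simp [mix, ht]
    have h2 : ∀ a, ∀ t ∉ S, (sw S x).1 a t = x.2 a t := by
      intro a t ht
      show mix S x.1 x.2 a t = _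
      simp [mix, ht]
    constructor
    · intro h
      exact hσ _ _ _ h2 (hρ _ _ _ h1 h)
    · intro h
      exact hσ _ _ _ (fun a t ht => (h2 a t ht).symm) (hρ _ _ _ (fun a t ht => (h1 a t ht).symm) h)
  have h1 : ((Finset.univ : Finset ((Fin p → Fin q → Bool) × (Fin p → Fin q → Bool))).filter
      (fun x => P x.1 x.1)).card = ((Finset.univ : Finset ((Fin p → Fin q → Bool) ×
        (Fin p → Fin q → Bool))).filter (fun x => P x.1 x.2)).card := by
    symm
    refine Finset.card_bij (fun x _ => sw S x) ?_ ?_ ?_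
    · intro x hx
      rw [Finset.mem_filter] at hx ⊢
      exact ⟨Finset.mem_univ _, (hkey x).2 hx.2⟩
    · intro x _ y _ h
      exact (sw S).injective h
    · intro y hy
      refine ⟨(sw S).symm y, ?_, (sw S).apply_symm_apply y⟩
      rw [Finset.mem_filter] at hy ⊢
      refine ⟨Finset.mem_univ _, (hkey _).1 ?_⟩
      rw [(sw S).apply_symm_apply]
      exact hy.2
  have h2 : ((Finset.univ : Finset ((Fin p → Fin q → Bool) × (Fin p → Fin q → Bool))).filter
      (fun x => P x.1 x.1)).card =
      cnt (fun σ : Fin p → Fin q → Bool => P σ σ) * 2 ^ (p * q) := by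
    rw [← hcard, ← Finset.card_univ, cnt, ← Finset.card_product]
    congr 1
    ext x
    simp only [Finset.mem_filter, Finset.mem_univ, true_and, Finset.mem_product, and_true]
  have h3 : ((Finset.univ : Finset ((Fin p → Fin q → Bool) × (Fin p → Fin q → Bool))).filter
      (fun x => P x.1 x.2)).card =
      ∑ ρ : Fin p → Fin q → Bool, cnt (fun σ : Fin p → Fin q → Bool => P ρ σ) := by
    rw [Finset.card_filter, Fintype.sum_prod_type]
    refine Finset.sum_congr rfl fun ρ _ => ?_
    rw [cnt, Finset.card_filter]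
  have h4 : (cnt (fun σ : Fin p → Fin q → Bool => P σ σ) : ℝ) * (2 : ℝ) ^ (p * q) ≤
      (2 : ℝ) ^ (p * q) * c * (2 : ℝ) ^ (p * q) := by
    have h5 : (cnt (fun σ : Fin p → Fin q → Bool => P σ σ) : ℝ) * (2 : ℝ) ^ (p * q) =
        ∑ ρ : Fin p → Fin q → Bool, (cnt (fun σ : Fin p → Fin q → Bool => P ρ σ) : ℝ) := by
      rw [h2, h3] at h1
      exact_mod_cast h1
    rw [h5]
    calc ∑ ρ : Fin p → Fin q → Bool, (cnt (fun σ : Fin p → Fin q → Bool => P ρ σ) : ℝ)
        ≤ ∑ _ρ : Fin p → Fin q → Bool, (2 : ℝ) ^ (p * q) * c := Finset.sum_le_sum fun ρ _ => hc ρ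
      _ = (2 : ℝ) ^ (p * q) * c * (2 : ℝ) ^ (p * q) := by
          rw [Finset.sum_const, Finset.card_univ, hcard, nsmul_eq_mul]
          push_cast
          ring
  exact le_of_mul_le_mul_right h4 (by positivity)

end Pool.Agent.Helper59.HL
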